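import Pool.Agent.Y451.AM.Stm

/-!
# AM-UNF: unfriendly colourings of the Bernoulli shift (project AM of helper451)

The argument is that of Conley and Tamuz.
-/

set_option autoImplicit false
set_option linter.unusedSectionVars false

open MeasureTheory Filter Topology

noncomputable section

namespace Pool.Agent.Y385.AM

open Pool.Agent.Y451.AM

section basic

variable {Γ : Type} [Group Γ]

/-- number of the neighbours with a different value -/
def Nn (T : Finset Γ) (f : Om Γ → Bool) (b : Om Γ) : ℕ :=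
  (T.filter (fun s => f (sh s b) ≠ f b)).card

/-- the set where the value is changed -/
def DD (T : Finset Γ) (A : Set (Om Γ)) (f : Om Γ → Bool) : Set (Om Γ) :=
  {b | b ∈ A ∧ 2 * Nn T f b < T.card}

open Classical in
/-- the changed function -/
def flp (T : Finset Γ) (A : Set (Om Γ)) (f : Om Γ → Bool) : Om Γ → Bool :=
  fun b => if b ∈ DD T A f then !f b else f b

/-- the sequence of functions -/
def sq (T : Finset Γ) (A : ℕ → Set (Om Γ)) : ℕ → Om Γ → Bool
  | 0 => fun _ => false
  | n + 1 => flp T (A n) (sq T A n)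

/-- the indicator of equality -/
def ei (f : Om Γ → Bool) (s : Γ) (b : Om Γ) : ℝ := if f (sh s b) = f b then 1 else 0

open Classical in
/-- the indicator of the set of changes -/
def di (T : Finset Γ) (A : Set (Om Γ)) (f : Om Γ → Bool) (b : Om Γ) : ℝ :=
  if b ∈ DD T A f then 1 else 0

lemma sh_inv_sh (s : Γ) (b : Om Γ) : sh s⁻¹ (sh s b) = b := by
  funext h
  simp [sh, mul_assoc]

lemma sum_ei (T : Finset Γ) (f : Om Γ → Bool) (b : Om Γ) :
    ∑ s ∈ T, (1 - 2 * ei f s b) = 2 * (Nn T f b : ℝ) - (T.card : ℝ) := by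
  have h1 : ∀ s ∈ T, (1 - 2 * ei f s b) = 2 * (if f (sh s b) ≠ f b then (1 : ℝ) else 0) - 1 := by
    intro s _
    unfold ei
    by_cases h : f (sh s b) = f b <;> simp [h] <;> norm_num
  rw [Finset.sum_congr rfl h1, Finset.sum_sub_distrib, ← Finset.mul_sum, Finset.sum_boole]
  simp [Nn]

lemma flp_ei (T : Finset Γ) (A : Set (Om Γ)) (hA : ∀ b ∈ A, ∀ s ∈ T, sh s b ∉ A)
    (f : Om Γ → Bool) (s : Γ) (hs : s ∈ T) (b : Om Γ) :
    ei (flp T A f) s b = ei f s b + (di T A f b + di T A f (sh s b)) * (1 - 2 * ei f s b) := by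
  classical
  by_cases h1 : b ∈ DD T A f
  · have h2 : sh s b ∉ DD T A f := fun h => hA b h1.1 s hs h.1
    have e1 : flp T A f b = !f b := by simp [flp, h1]
    have e2 : flp T A f (sh s b) = f (sh s b) := by simp [flp, h2]
    have e3 : di T A f b = 1 := by simp [di, h1]
    have e4 : di T A f (sh s b) = 0 := by simp [di, h2]
    rw [e3, e4]
    unfold ei
    rw [e1, e2]
    cases f b <;> cases f (sh s b) <;> simp <;> norm_num
  · by_cases h2 : sh s b ∈ DD T A f
    · have e1 : flp T A f b = f b := by simp [flp, h1]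
      have e2 : flp T A f (sh s b) = !f (sh s b) := by simp [flp, h2]
      have e3 : di T A f b = 0 := by simp [di, h1]
      have e4 : di T A f (sh s b) = 1 := by simp [di, h2]
      rw [e3, e4]
      unfold ei
      rw [e1, e2]
      cases f b <;> cases f (sh s b) <;> simp <;> norm_num
    · have e1 : flp T A f b = f b := by simp [flp, h1]
      have e2 : flp T A f (sh s b) = f (sh s b) := by simp [flp, h2]
      have e3 : di T A f b = 0 := by simp [di, h1]
      have e4 : di T A f (sh s b) = 0 := by simp [di, h2]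
      rw [e3, e4]
      unfold ei
      rw [e1, e2]
      ring

end basic

section measurability

variable {Γ : Type} [Group Γ]

lemma measurable_sh (s : Γ) : Measurable (sh s : Om Γ → Om Γ) :=
  measurable_pi_lambda _ fun h => measurable_pi_apply (h * s)

lemma measurableSet_ne (f : Om Γ → Bool) (hf : Measurable f) (s : Γ) :
    MeasurableSet {b : Om Γ | f (sh s b) ≠ f b} :=
  (measurableSet_eq_fun (hf.comp (measurable_sh s)) hf).compl

lemma measurable_Nn (T : Finset Γ) (f : Om Γ → Bool) (hf : Measurable f) :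
    Measurable (Nn T f) := by
  have h1 : Nn T f = fun b => ∑ s ∈ T, if f (sh s b) ≠ f b then 1 else 0 := by
    funext b
    rw [Finset.sum_boole]
    rfl
  rw [h1]
  refine Finset.measurable_sum T fun s _ => ?_
  exact Measurable.ite (measurableSet_ne f hf s) measurable_const measurable_const

lemma measurableSet_DD (T : Finset Γ) (A : Set (Om Γ)) (hA : MeasurableSet A) (f : Om Γ → Bool)
    (hf : Measurable f) : MeasurableSet (DD T A f) := by
  refine hA.inter ?_
  have h1 : Measurable fun b => 2 * Nn T f b := (measurable_Nn T f hf).const_mul 2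
  exact measurableSet_lt h1 measurable_const

lemma measurable_flp (T : Finset Γ) (A : Set (Om Γ)) (hA : MeasurableSet A) (f : Om Γ → Bool)
    (hf : Measurable f) : Measurable (flp T A f) := by
  classical
  exact Measurable.ite (measurableSet_DD T A hA f hf)
    ((measurable_of_countable Bool.not).comp hf) hf

lemma measurable_sq (T : Finset Γ) (A : ℕ → Set (Om Γ)) (hA : ∀ n, MeasurableSet (A n)) (n : ℕ) :
    Measurable (sq T A n) := by
  induction n with
  | zero => exact measurable_const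
  | succ n ih => exact measurable_flp T (A n) (hA n) _ ih

lemma measurable_ei (f : Om Γ → Bool) (hf : Measurable f) (s : Γ) : Measurable (ei f s) :=
  Measurable.ite (measurableSet_eq_fun (hf.comp (measurable_sh s)) hf) measurable_const
    measurable_const

lemma measurable_di (T : Finset Γ) (A : Set (Om Γ)) (hA : MeasurableSet A) (f : Om Γ → Bool)
    (hf : Measurable f) : Measurable (di T A f) := by
  classical
  exact Measurable.ite (measurableSet_DD T A hA f hf) measurable_const measurable_const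

lemma integrable_bdd {g : Om Γ → ℝ} (hg : Measurable g) (C : ℝ) (hC : ∀ b, |g b| ≤ C) :
    Integrable g (PP Γ) :=
  Integrable.of_bound hg.aestronglyMeasurable C (Filter.Eventually.of_forall hC)

lemma abs_ei (f : Om Γ → Bool) (s : Γ) (b : Om Γ) : |ei f s b| ≤ 1 := by
  unfold ei; split_ifs <;> simp

lemma abs_di (T : Finset Γ) (A : Set (Om Γ)) (f : Om Γ → Bool) (b : Om Γ) :
    |di T A f b| ≤ 1 := by
  classical
  unfold di; split_ifs <;> simp

lemma di_nonneg (T : Finset Γ) (A : Set (Om Γ)) (f : Om Γ → Bool) (b : Om Γ) :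
    0 ≤ di T A f b := by
  classical
  unfold di; split_ifs <;> simp

lemma integral_di (T : Finset Γ) (A : Set (Om Γ)) (hA : MeasurableSet A) (f : Om Γ → Bool)
    (hf : Measurable f) : ∫ b, di T A f b ∂PP Γ = (PP Γ).real (DD T A f) := by
  classical
  have h1 : di T A f = (DD T A f).indicator 1 := by
    funext b
    simp [di, Set.indicator_apply]
  rw [h1, integral_indicator_one (measurableSet_DD T A hA f hf)]

end measurability

section energy

variable {Γ : Type} [Group Γ] [Countable Γ]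

/-- the energy -/
def EN (T : Finset Γ) (f : Om Γ → Bool) : ℝ := ∑ s ∈ T, ∫ b, ei f s b ∂PP Γ

lemma EN_nonneg (T : Finset Γ) (f : Om Γ → Bool) : 0 ≤ EN T f :=
  Finset.sum_nonneg fun s _ => integral_nonneg fun b => by
    unfold ei; split_ifs <;> simp

lemma EN_flp (hP : S_PRD) (T : Finset Γ) (hT : ∀ s ∈ T, s⁻¹ ∈ T) (A : Set (Om Γ))
    (hAm : MeasurableSet A) (hA : ∀ b ∈ A, ∀ s ∈ T, sh s b ∉ A) (f : Om Γ → Bool)
    (hf : Measurable f) : EN T (flp T A f) + (PP Γ).real (DD T A f) ≤ EN T f := by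
  have hmd := measurable_di T A hAm f hf
  have hme := fun s => measurable_ei f hf s
  have hg : ∀ s, Measurable fun b => di T A f b * (1 - 2 * ei f s b) := fun s =>
    hmd.mul (measurable_const.sub ((hme s).const_mul 2))
  have hbd : ∀ s b, |1 - 2 * ei f s b| ≤ 1 := by
    intro s b
    unfold ei; split_ifs <;> norm_num
  have hgb : ∀ s b, |di T A f b * (1 - 2 * ei f s b)| ≤ 1 := by
    intro s b
    rw [abs_mul]
    calc |di T A f b| * |1 - 2 * ei f s b| ≤ 1 * 1 :=
          mul_le_mul (abs_di T A f b) (hbd s b) (abs_nonneg _) zero_le_one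
      _ = 1 := one_mul 1
  have hgi : ∀ s, Integrable (fun b => di T A f b * (1 - 2 * ei f s b)) (PP Γ) := fun s =>
    integrable_bdd (hg s) 1 (hgb s)
  have hshm : ∀ s : Γ, MeasurePreserving (sh s : Om Γ → Om Γ) (PP Γ) (PP Γ) := fun s => hP.2.1 Γ s
  -- the translated part
  have h2 : ∀ s, Integrable (fun b => di T A f (sh s b) * (1 - 2 * ei f s b)) (PP Γ) := by
    intro s
    refine integrable_bdd ((hmd.comp (measurable_sh s)).mul
      (measurable_const.sub ((hme s).const_mul 2))) 1 ?_
    intro b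
    rw [abs_mul]
    calc |di T A f (sh s b)| * |1 - 2 * ei f s b| ≤ 1 * 1 :=
          mul_le_mul (abs_di T A f _) (hbd s b) (abs_nonneg _) zero_le_one
      _ = 1 := one_mul 1
  have h3 : ∀ s, ∫ b, di T A f (sh s b) * (1 - 2 * ei f s b) ∂PP Γ =
      ∫ b, di T A f b * (1 - 2 * ei f s⁻¹ b) ∂PP Γ := by
    intro s
    have h4 : ∀ b, di T A f (sh s b) * (1 - 2 * ei f s b) =
        (fun c => di T A f c * (1 - 2 * ei f s⁻¹ c)) (sh s b) := by
      intro b
      have h5 : ei f s⁻¹ (sh s b) = ei f s b := by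
        unfold ei
        rw [sh_inv_sh]
        simp only [eq_comm]
      simp only [h5]
    calc ∫ b, di T A f (sh s b) * (1 - 2 * ei f s b) ∂PP Γ
        = ∫ b, (fun c => di T A f c * (1 - 2 * ei f s⁻¹ c)) (sh s b) ∂PP Γ :=
          integral_congr_ae (Filter.Eventually.of_forall h4)
      _ = ∫ c, di T A f c * (1 - 2 * ei f s⁻¹ c) ∂((PP Γ).map (sh s)) :=
          (integral_map (measurable_sh s).aemeasurable
            ((hg s⁻¹).aestronglyMeasurable)).symm
      _ = ∫ b, di T A f b * (1 - 2 * ei f s⁻¹ b) ∂PP Γ := by rw [(hshm s).map_eq]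
  have h4 : ∀ s ∈ T, ∫ b, ei (flp T A f) s b ∂PP Γ = ∫ b, ei f s b ∂PP Γ +
      (∫ b, di T A f b * (1 - 2 * ei f s b) ∂PP Γ +
        ∫ b, di T A f b * (1 - 2 * ei f s⁻¹ b) ∂PP Γ) := by
    intro s hs
    have e1 : ∫ b, (di T A f b * (1 - 2 * ei f s b) + di T A f (sh s b) * (1 - 2 * ei f s b))
        ∂PP Γ = ∫ b, di T A f b * (1 - 2 * ei f s b) ∂PP Γ +
          ∫ b, di T A f (sh s b) * (1 - 2 * ei f s b) ∂PP Γ := integral_add (hgi s) (h2 s)
    have e2 : ∫ b, (ei f s b + (di T A f b * (1 - 2 * ei f s b) +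
        di T A f (sh s b) * (1 - 2 * ei f s b))) ∂PP Γ = ∫ b, ei f s b ∂PP Γ +
          ∫ b, (di T A f b * (1 - 2 * ei f s b) + di T A f (sh s b) * (1 - 2 * ei f s b)) ∂PP Γ :=
      integral_add (integrable_bdd (hme s) 1 (abs_ei f s)) ((hgi s).add (h2 s))
    rw [← h3 s, ← e1, ← e2]
    refine integral_congr_ae (Filter.Eventually.of_forall fun b => ?_)
    change ei (flp T A f) s b = ei f s b + (di T A f b * (1 - 2 * ei f s b) +
      di T A f (sh s b) * (1 - 2 * ei f s b))
    rw [flp_ei T A hA f s hs b]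
    ring
  have h5 : ∑ s ∈ T, ∫ b, di T A f b * (1 - 2 * ei f s⁻¹ b) ∂PP Γ =
      ∑ s ∈ T, ∫ b, di T A f b * (1 - 2 * ei f s b) ∂PP Γ := by
    refine Finset.sum_nbij' (fun s => s⁻¹) (fun s => s⁻¹) hT hT ?_ ?_ ?_
    · intro s _; exact inv_inv s
    · intro s _; exact inv_inv s
    · intro s _; rfl
  have h6 : ∑ s ∈ T, ∫ b, di T A f b * (1 - 2 * ei f s b) ∂PP Γ ≤ -(PP Γ).real (DD T A f) := by
    rw [← integral_finsetSum T fun s _ => hgi s, ← integral_di T A hAm f hf, ← integral_neg]
    refine integral_mono (integrable_finsetSum T fun s _ => hgi s)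
      (integrable_bdd hmd 1 (abs_di T A f)).neg fun b => ?_
    change ∑ s ∈ T, di T A f b * (1 - 2 * ei f s b) ≤ -di T A f b
    rw [← Finset.mul_sum, sum_ei]
    classical
    unfold di
    split_ifs with hb
    · have h7 : (2 * (Nn T f b : ℝ) - T.card) ≤ -1 := by
        have h8 : ((2 * Nn T f b + 1 : ℕ) : ℝ) ≤ (T.card : ℝ) := by exact_mod_cast hb.2
        push_cast at h8
        linarith
      linarith
    · simp
  have h7 : EN T (flp T A f) = EN T f + (∑ s ∈ T, ∫ b, di T A f b * (1 - 2 * ei f s b) ∂PP Γ +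
      ∑ s ∈ T, ∫ b, di T A f b * (1 - 2 * ei f s⁻¹ b) ∂PP Γ) := by
    unfold EN
    rw [Finset.sum_congr rfl h4, Finset.sum_add_distrib, Finset.sum_add_distrib]
  rw [h7, h5]
  have h8 : 0 ≤ (PP Γ).real (DD T A f) := measureReal_nonneg
  linarith

/-- the sets of changes have a finite total measure -/
lemma sum_DD (hP : S_PRD) (T : Finset Γ) (hT : ∀ s ∈ T, s⁻¹ ∈ T) (A : ℕ → Set (Om Γ))
    (hAm : ∀ n, MeasurableSet (A n)) (hA : ∀ n, ∀ b ∈ A n, ∀ s ∈ T, sh s b ∉ A n) :
    ∑' n, (PP Γ) (DD T (A n) (sq T A n)) ≠ ⊤ := by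
  have h1 : ∀ N : ℕ, ∑ n ∈ Finset.range N, (PP Γ).real (DD T (A n) (sq T A n)) +
      EN T (sq T A N) ≤ EN T (sq T A 0) := by
    intro N
    induction N with
    | zero => simp
    | succ N ih =>
      rw [Finset.sum_range_succ]
      have h2 := EN_flp hP T hT (A N) (hAm N) (hA N) (sq T A N) (measurable_sq T A hAm N)
      have h3 : sq T A (N + 1) = flp T (A N) (sq T A N) := rfl
      rw [h3]
      linarith
  have h2 : ∑' n, (PP Γ) (DD T (A n) (sq T A n)) ≤ ENNReal.ofReal (EN T (sq T A 0)) := by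
    refine ENNReal.tsum_le_of_sum_range_le fun N => ?_
    have h3 : ∑ n ∈ Finset.range N, (PP Γ) (DD T (A n) (sq T A n)) =
        ENNReal.ofReal (∑ n ∈ Finset.range N, (PP Γ).real (DD T (A n) (sq T A n))) := by
      rw [ENNReal.ofReal_sum_of_nonneg fun n _ => measureReal_nonneg]
      refine Finset.sum_congr rfl fun n _ => ?_
      rw [ofReal_measureReal]
    rw [h3]
    apply ENNReal.ofReal_le_ofReal
    have h4 := h1 N
    have h5 := EN_nonneg T (sq T A N)
    linarith
  exact ne_top_of_le_ne_top ENNReal.ofReal_ne_top h2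

end energy

section final

variable {Γ : Type} [Group Γ] [Countable Γ]

/-- the independent sets -/
def AA (T : Finset Γ) (p : ℚ × ℚ) : Set (Om Γ) :=
  {b | ((p.1 : ℝ) < (b 1 : ℝ) ∧ (b 1 : ℝ) < (p.2 : ℝ)) ∧
    ∀ s ∈ T, ¬ ((p.1 : ℝ) < (b s : ℝ) ∧ (b s : ℝ) < (p.2 : ℝ))}

lemma AA_indep (T : Finset Γ) (p : ℚ × ℚ) : ∀ b ∈ AA T p, ∀ s ∈ T, sh s b ∉ AA T p := by
  intro b hb s hs h
  have h1 := h.1
  have h2 : (sh s b) 1 = b s := by simp [sh]
  rw [h2] at h1
  exact hb.2 s hs h1

lemma measurableSet_AA (T : Finset Γ) (p : ℚ × ℚ) : MeasurableSet (AA T p) := by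
  have hm : ∀ g : Γ, Measurable fun b : Om Γ => ((b g : unitInterval) : ℝ) := fun g =>
    measurable_subtype_coe.comp (measurable_pi_apply g)
  have hI : ∀ g : Γ, MeasurableSet {b : Om Γ | (p.1 : ℝ) < (b g : ℝ) ∧ (b g : ℝ) < (p.2 : ℝ)} :=
    fun g => (measurableSet_lt measurable_const (hm g)).inter
      (measurableSet_lt (hm g) measurable_const)
  have h1 : AA T p = {b : Om Γ | (p.1 : ℝ) < (b 1 : ℝ) ∧ (b 1 : ℝ) < (p.2 : ℝ)} ∩
      ⋂ s ∈ T, {b : Om Γ | (p.1 : ℝ) < (b s : ℝ) ∧ (b s : ℝ) < (p.2 : ℝ)}ᶜ := by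
    ext b
    simp [AA]
  rw [h1]
  exact (hI 1).inter (MeasurableSet.biInter T.countable_toSet fun s _ => (hI s).compl)

/-- points with different values at `1` and at the elements of `T` are in one of the sets -/
lemma exists_AA (T : Finset Γ) (b : Om Γ) (hb : ∀ s ∈ T, b 1 ≠ b s) : ∃ p, b ∈ AA T p := by
  classical
  -- a positive distance
  obtain ⟨δ, hδ, hd⟩ : ∃ δ : ℝ, 0 < δ ∧ ∀ s ∈ T, δ ≤ |(b s : ℝ) - (b 1 : ℝ)| := by
    rcases T.eq_empty_or_nonempty with rfl | hne
    · exact ⟨1, one_pos, by simp⟩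
    · refine ⟨T.inf' hne fun s => |(b s : ℝ) - (b 1 : ℝ)|, ?_, fun s hs =>
        Finset.inf'_le _ hs⟩
      rw [Finset.lt_inf'_iff]
      intro s hs
      rw [abs_pos, sub_ne_zero]
      intro h
      exact hb s hs (Subtype.ext h.symm)
  obtain ⟨p, hp1, hp2⟩ := exists_rat_btwn (show (b 1 : ℝ) - δ < b 1 by linarith)
  obtain ⟨q, hq1, hq2⟩ := exists_rat_btwn (show (b 1 : ℝ) < b 1 + δ by linarith)
  refine ⟨(p, q), ⟨hp2, hq1⟩, fun s hs h => ?_⟩
  have h1 := hd s hs
  have h2 : |(b s : ℝ) - (b 1 : ℝ)| < δ := by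
    rw [abs_lt]
    constructor <;> linarith [h.1, h.2]
  linarith

/-- the coordinates are different almost surely -/
lemma ae_ne (s : Γ) (hs : s ≠ 1) : ∀ᵐ b ∂PP Γ, b 1 ≠ b s := by
  have hind : ProbabilityTheory.iIndepFun (fun (i : Γ) (ω : Om Γ) => ω i) (PP Γ) :=
    ProbabilityTheory.iIndepFun_infinitePi (P := fun _ : Γ => (volume : Measure unitInterval))
      (X := fun _ b => b) (fun _ => measurable_id)
  have h1 := hind.indepFun (Ne.symm hs)
  have hm : ∀ g : Γ, Measurable fun b : Om Γ => b g := fun g => measurable_pi_apply g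
  have hmap : ∀ g : Γ, (PP Γ).map (fun b : Om Γ => b g) = (volume : Measure unitInterval) :=
    fun g => (measurePreserving_eval_infinitePi (fun _ : Γ => (volume : Measure unitInterval)) g).map_eq
  rw [ProbabilityTheory.indepFun_iff_map_prod_eq_prod_map_map (hm 1).aemeasurable
    (hm s).aemeasurable, hmap, hmap] at h1
  have hD : MeasurableSet {z : unitInterval × unitInterval | z.1 = z.2} :=
    measurableSet_eq_fun measurable_fst measurable_snd
  have h2 : ((volume : Measure unitInterval).prod (volume : Measure unitInterval))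
      {z : unitInterval × unitInterval | z.1 = z.2} = 0 := by
    rw [Measure.measure_prod_null hD]
    refine Filter.Eventually.of_forall fun x => ?_
    have h3 : Prod.mk x ⁻¹' {z : unitInterval × unitInterval | z.1 = z.2} = {x} := by
      ext y
      simp [eq_comm]
    change (volume : Measure unitInterval) (Prod.mk x ⁻¹'
      {z : unitInterval × unitInterval | z.1 = z.2}) = 0
    rw [h3]
    exact measure_singleton x
  rw [← h1, Measure.map_apply ((hm 1).prodMk (hm s)) hD] at h2
  have h5 : {b : Om Γ | ¬ b 1 ≠ b s} = (fun a : Om Γ => (a 1, a s)) ⁻¹'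
      {z : unitInterval × unitInterval | z.1 = z.2} := by
    ext b
    simp
  rw [ae_iff, h5]
  exact h2

/-- UNF: unfriendly colourings of the Bernoulli shift. -/
theorem unf (hP : S_PRD) : S_UNF := by
  intro Γ _ _ T hT h1T
  classical
  obtain ⟨e, he⟩ := exists_surjective_nat (ℚ × ℚ)
  set A : ℕ → Set (Om Γ) := fun n => AA T (e n.unpair.1) with hAdef
  have hAm : ∀ n, MeasurableSet (A n) := fun n => measurableSet_AA T _
  have hA : ∀ n, ∀ b ∈ A n, ∀ s ∈ T, sh s b ∉ A n := fun n => AA_indep T _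
  have hBC : ∀ᵐ b ∂PP Γ, ∀ᶠ n in atTop, b ∉ DD T (A n) (sq T A n) :=
    ae_eventually_notMem (sum_DD hP T hT A hAm hA)
  have hBCs : ∀ᵐ b ∂PP Γ, ∀ s : Γ, ∀ᶠ n in atTop, sh s b ∉ DD T (A n) (sq T A n) := by
    rw [ae_all_iff]
    intro s
    exact (hP.2.1 Γ s).quasiMeasurePreserving.ae hBC
  have hne : ∀ᵐ b ∂PP Γ, ∀ s ∈ (T : Set Γ), b 1 ≠ b s :=
    (ae_ball_iff T.countable_toSet).2 fun s hs => ae_ne s fun h => h1T (h ▸ hs)
  -- the limit
  set f : Om Γ → Bool := fun b => decide (∃ N, ∀ n, N ≤ n → sq T A n b = true) with hf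
  have hfm : MeasurableSet {b : Om Γ | ∃ N, ∀ n, N ≤ n → sq T A n b = true} := by
    have h1 : {b : Om Γ | ∃ N, ∀ n, N ≤ n → sq T A n b = true} =
        ⋃ N, ⋂ n, ⋂ (_ : N ≤ n), {b : Om Γ | sq T A n b = true} := by
      ext b; simp
    rw [h1]
    exact MeasurableSet.iUnion fun N => MeasurableSet.iInter fun n => MeasurableSet.iInter fun _ =>
      measurableSet_eq_fun (measurable_sq T A hAm n) measurable_const
  have hlim : ∀ b : Om Γ, (∀ᶠ n in atTop, b ∉ DD T (A n) (sq T A n)) →
      ∀ᶠ n in atTop, sq T A n b = f b := by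
    intro b hb
    rw [eventually_atTop] at hb
    obtain ⟨N, hN⟩ := hb
    have h1 : ∀ n, N ≤ n → sq T A n b = sq T A N b := by
      intro n hn
      induction n, hn using Nat.le_induction with
      | base => rfl
      | succ n hn ih =>
        rw [← ih]
        change flp T (A n) (sq T A n) b = _
        simp [flp, hN n hn]
    rw [eventually_atTop]
    refine ⟨N, fun n hn => ?_⟩
    rw [h1 n hn]
    cases hv : sq T A N b with
    | true =>
      symm
      rw [hf]
      simp only [decide_eq_true_eq]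
      exact ⟨N, fun m hm => by rw [h1 m hm, hv]⟩
    | false =>
      symm
      rw [hf]
      simp only [decide_eq_false_iff_not]
      rintro ⟨M, hM⟩
      have h2 := hM (max M N) (le_max_left _ _)
      rw [h1 _ (le_max_right _ _), hv] at h2
      exact absurd h2 (by decide)
  refine ⟨fun b => if f b = true then 1 else 0, ?_, ?_⟩
  · refine Measurable.ite ?_ measurable_const measurable_const
    have h2 : {b : Om Γ | f b = true} = {b : Om Γ | ∃ N, ∀ n, N ≤ n → sq T A n b = true} := by
      ext b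
      simp [hf]
    rw [h2]
    exact hfm
  · filter_upwards [hBC, hBCs, hne] with b hb hbs hbne
    by_contra hcon
    have h3 : {s : Γ | s ∈ T ∧ (if f (sh s b) = true then (1 : Fin 2) else 0) ≠
        (if f b = true then 1 else 0)}.ncard = Nn T f b := by
      have h4 : {s : Γ | s ∈ T ∧ (if f (sh s b) = true then (1 : Fin 2) else 0) ≠
          (if f b = true then 1 else 0)} = ((T.filter fun s => f (sh s b) ≠ f b : Finset Γ) :
            Set Γ) := by
        ext s
        rw [Finset.coe_filter]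
        change _ ↔ s ∈ T ∧ f (sh s b) ≠ f b
        change (s ∈ T ∧ _) ↔ _
        cases f (sh s b) <;> cases f b <;> simp
      rw [h4, Set.ncard_coe_finset]
      rfl
    rw [h3, not_le] at hcon
    obtain ⟨p, hp⟩ := exists_AA T b hbne
    obtain ⟨i, hi⟩ := he p
    have h5 : ∀ᶠ n in atTop, ∀ s ∈ T, sq T A n (sh s b) = f (sh s b) := by
      rw [Finset.eventually_all]
      intro s _
      exact hlim (sh s b) (hbs s)
    have h6 := hlim b hb
    obtain ⟨N, hN⟩ := eventually_atTop.1 (h5.and (h6.and hb))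
    have h7 : N ≤ Nat.pair i N := Nat.right_le_pair i N
    obtain ⟨h8, h9, h10⟩ := hN _ h7
    apply h10
    refine ⟨?_, ?_⟩
    · rw [hAdef]
      simp only [Nat.unpair_pair, hi]
      exact hp
    · have h11 : Nn T (sq T A (Nat.pair i N)) b = Nn T f b := by
        unfold Nn
        congr 1
        apply Finset.filter_congr
        intro s hs
        rw [h8 s hs, h9]
      rw [h11]
      exact hcon

end final

end Pool.Agent.Y385.AM

end
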